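import Mathlib

/-!
# Cyclic sorting time: the conjectured extremal permutation is not extremal for n = 18

For `n = 18` the greedy permutation `π₀` has `82` inversions. The permutation
`π = 5 4 17 3 16 2 15 14 1 13 12 11 10 9 8 7 6 18` has the property that all its rotations
`π c^i` have at least `83` inversions, and the distance of `c` and `π c π⁻¹` in the graph is at least
the minimum of these numbers.
-/

namespace Pool.Agent.Results.MP_fb91b8_co.SortEighteen

open Equiv Finset

/-- The `n`-cycles in `S_n`. -/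
abbrev Cyc (n : ℕ) := {γ : Perm (Fin n) // γ.IsCycleOn Set.univ}

/-- The transposition `s_i` of two consecutive values. -/
def s {n : ℕ} (i : ℕ) (h : i + 1 < n) : Perm (Fin n) := swap ⟨i, by omega⟩ ⟨i + 1, h⟩

/-- The graph `Γ_n`. -/
def Gam (n : ℕ) : SimpleGraph (Cyc n) where
  Adj γ γ' := γ ≠ γ' ∧ ∃ (i : ℕ) (h : i + 1 < n), γ'.1 = s i h * γ.1 * s i h
  symm := ⟨fun γ γ' => by
    rintro ⟨h1, i, h, h2⟩
    refine ⟨h1.symm, i, h, ?_⟩
    rw [h2, s]
    simp [mul_assoc]⟩
  loopless := ⟨fun γ h => h.1 rfl⟩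

/-- The number of inversions of a permutation. -/
def inv {n : ℕ} (w : Perm (Fin n)) : ℕ := #{p : Fin n × Fin n | p.1 < p.2 ∧ w p.2 < w p.1}

/-- The number of inversions of a list. -/
def listInv : List ℕ → ℕ
  | [] => 0
  | a :: l => l.countP (fun b => decide (b < a)) + listInv l

/-- The one-line notation `l` is admissible. -/
def Adm (n : ℕ) (l : List ℕ) : Prop := ∀ k ∈ List.range (n + 1), 2 * (l.take k).sum ≤ k * (n + 1)

instance (n : ℕ) (l : List ℕ) : Decidable (Adm n l) := by unfold Adm; infer_instance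

/-- `a, a - 1, …, 1` shifted up by `b`. -/
def down (a b : ℕ) : List ℕ := (List.range a).map fun i => a - i + b

/-- The starting permutation `n-m, …, 1, n, …, n-m+1`. -/
def start (n : ℕ) : List ℕ := down (n - n / 2) 0 ++ down (n / 2) (n - n / 2)

/-- Move the value `v` to the left as far as possible while keeping the permutation admissible,
never moving it past a larger value. -/
def move (n : ℕ) (l : List ℕ) (v : ℕ) : List ℕ :=
  let pos := l.idxOf v
  match (List.range (pos + 1)).find? (fun q =>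
      decide (Adm n ((l.eraseIdx pos).insertIdx q v) ∧
        ∀ x ∈ (l.take pos).drop q, x < v)) with
  | some q => (l.eraseIdx pos).insertIdx q v
  | none => l

/-- The permutation `π₀`. -/
def pi0 (n : ℕ) : List ℕ := (List.range (n / 2)).foldl (fun l t => move n l (n - t)) (start n)

example : pi0 12 = [6, 5, 4, 3, 12, 2, 11, 1, 10, 9, 8, 7] := by decide +kernel

lemma pi0_18 : pi0 18 = [9, 8, 7, 6, 5, 18, 4, 17, 3, 16, 2, 15, 1, 14, 13, 12, 11, 10] := by
  decide +kernel

lemma inv_pi0 : listInv (pi0 18) = 82 := by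
  rw [pi0_18]; decide +kernel

lemma inv_s_mul {n : ℕ} (i : ℕ) (h : i + 1 < n) (w : Perm (Fin n)) :
    inv (s i h * w) ≤ inv w + 1 := by
  have hsub : (univ.filter fun p : Fin n × Fin n => p.1 < p.2 ∧ (s i h * w) p.2 < (s i h * w) p.1) ⊆
      insert (w⁻¹ ⟨i, by omega⟩, w⁻¹ ⟨i + 1, h⟩)
        (univ.filter fun p : Fin n × Fin n => p.1 < p.2 ∧ w p.2 < w p.1) := by
    rintro ⟨a, b⟩ hp
    simp only [mem_filter, mem_univ, true_and, mem_insert] at hp ⊢
    obtain ⟨h1, h2⟩ := hp
    by_cases hlt : w b < w a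
    · right; exact ⟨h1, hlt⟩
    · left
      have hne : w a ≠ w b := fun he => h1.ne (w.injective he)
      have hlt' : w a < w b := lt_of_le_of_ne (not_lt.1 hlt) hne
      simp only [Perm.mul_apply, s] at h2
      have ea : w a = ⟨i, by omega⟩ ∧ w b = ⟨i + 1, h⟩ := by
        rw [swap_apply_def, swap_apply_def] at h2
        clear hlt hne
        generalize w a = x at *
        generalize w b = y at *
        split_ifs at h2 with g1 g2 g3 g4 <;> simp only [Fin.lt_def, Fin.ext_iff] at * <;>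
          omega
      rw [Prod.mk.injEq]
      constructor
      · rw [← ea.1]; simp
      · rw [← ea.2]; simp
  exact (card_le_card hsub).trans (card_insert_le _ _)

lemma walk_bound {n : ℕ} (c : Perm (Fin n)) {u v : Cyc n} (p : (Gam n).Walk u v) :
    ∀ w : Perm (Fin n), w * c * w⁻¹ = u.1 → ∃ w' : Perm (Fin n), w' * c * w'⁻¹ = v.1 ∧
      inv w' ≤ inv w + p.length := by
  induction p with
  | nil => intro w hw; exact ⟨w, hw, by simp⟩
  | cons h p ih =>
    intro w hw
    obtain ⟨_, i, hi, e⟩ := h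
    have e0 : (s i hi * w) * c * (s i hi * w)⁻¹ = s i hi * (w * c * w⁻¹) * s i hi := by
      calc (s i hi * w) * c * (s i hi * w)⁻¹ = s i hi * (w * c * w⁻¹) * (s i hi)⁻¹ := by group
        _ = s i hi * (w * c * w⁻¹) * s i hi := by rw [s, swap_inv]
    obtain ⟨w', h1, h2⟩ := ih (s i hi * w) (by rw [e0, hw, e])
    refine ⟨w', h1, ?_⟩
    have := inv_s_mul i hi w
    exact h2.trans (by
      change inv (s i hi * w) + p.length ≤ inv w + (p.length + 1)
      omega)

/-- Conjugation preserves the set of `n`-cycles. -/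
lemma conj_cyc {n : ℕ} {c : Perm (Fin n)} (hc : c.IsCycleOn Set.univ) (w : Perm (Fin n)) :
    (w * c * w⁻¹).IsCycleOn Set.univ := by
  have := hc.conj (g := w)
  simpa using this

lemma reach {n : ℕ} {c : Perm (Fin (n + 1))} (hc : c.IsCycleOn Set.univ) (w : Perm (Fin (n + 1))) :
    (Gam (n + 1)).Reachable ⟨c, hc⟩ ⟨w * c * w⁻¹, conj_cyc hc w⟩ := by
  have hw : w ∈ Submonoid.closure (Set.range fun i : Fin n => swap i.castSucc i.succ) := by
    rw [Perm.mclosure_swap_castSucc_succ]; trivial
  induction hw using Submonoid.closure_induction_left with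
  | one =>
    have : (⟨1 * c * 1⁻¹, conj_cyc hc 1⟩ : Cyc (n + 1)) = ⟨c, hc⟩ := by
      apply Subtype.ext; simp
    rw [this]
  | mul_left x hx y hy ih =>
    obtain ⟨i, rfl⟩ := hx
    by_cases heq : (⟨y * c * y⁻¹, conj_cyc hc y⟩ : Cyc (n + 1)) =
        ⟨swap i.castSucc i.succ * y * c * (swap i.castSucc i.succ * y)⁻¹, conj_cyc hc _⟩
    · rw [← heq]; exact ih
    · refine ih.trans (SimpleGraph.Adj.reachable ⟨heq, i, by have := i.2; omega, ?_⟩)
      simp only [s, mul_inv_rev, swap_inv, mul_assoc]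
      rfl

lemma cyc18 : (finRotate 18).IsCycleOn Set.univ := by
  have h := (isCycle_finRotate (n := 16)).isCycleOn
  convert h using 1
  ext x
  simp only [Set.mem_univ, true_iff]
  change finRotate 18 x ≠ x
  revert x
  decide

/-- Permutations commuting with the rotation are its powers. -/
lemma commute_rot {u : Perm (Fin 18)} (h : u * finRotate 18 = finRotate 18 * u) (j : Fin 18) :
    u j = j + u 0 := by
  have h1 : ∀ x, u (x + 1) = u x + 1 := by
    intro x
    have := congrArg (fun f => f x) h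
    simpa [Perm.mul_apply] using this
  induction j using Fin.induction (n := 17) with
  | zero => simp
  | succ i ih =>
    have e : i.succ = i.castSucc + 1 := by simp
    rw [e, h1, ih, add_right_comm]

/-- The permutation `5 4 17 3 16 2 15 14 1 13 12 11 10 9 8 7 6 18` (with values from `0`). -/
def f : Fin 18 → Fin 18 := ![4, 3, 16, 2, 15, 1, 14, 13, 0, 12, 11, 10, 9, 8, 7, 6, 5, 17]

/-- Its inverse. -/
def g : Fin 18 → Fin 18 := ![8, 5, 3, 1, 0, 16, 15, 14, 13, 12, 11, 10, 9, 7, 6, 4, 2, 17]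

/-- The permutation. -/
def π : Perm (Fin 18) := ⟨f, g, by decide +kernel, by decide +kernel⟩

lemma rotations : ∀ i : Fin 18,
    83 ≤ #{p : Fin 18 × Fin 18 | p.1 < p.2 ∧ f (p.2 + i) < f (p.1 + i)} := by
  decide +kernel

lemma inv_one : inv (1 : Perm (Fin 18)) = 0 := by
  rw [inv, card_eq_zero, filter_eq_empty_iff]
  rintro ⟨a, b⟩ _ ⟨h1, h2⟩
  exact absurd h1 (not_lt.2 h2.le)

/-- The cycle `c_n = (1, 2, …, n)` is `finRotate n`. For `n = 18` there is an `n`-cycle at distance
at least `83` from `c_n`, while `π₀` has `82` inversions. -/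
theorem result : ∃ (n : ℕ) (_ : 1 ≤ n) (hc : (finRotate n).IsCycleOn Set.univ) (γ : Cyc n),
    listInv (pi0 n) < (Gam n).dist ⟨finRotate n, hc⟩ γ := by
  refine ⟨18, by norm_num, cyc18, ⟨π * finRotate 18 * π⁻¹, conj_cyc cyc18 π⟩, ?_⟩
  rw [inv_pi0]
  obtain ⟨p, hp⟩ := (reach cyc18 π).exists_walk_length_eq_dist
  rw [← hp]
  obtain ⟨w, h1, h2⟩ := walk_bound (finRotate 18) p 1 (by simp)
  rw [inv_one, zero_add] at h2
  have h3 : (π⁻¹ * w) * finRotate 18 = finRotate 18 * (π⁻¹ * w) := by
    have h1' : w * finRotate 18 * w⁻¹ = π * finRotate 18 * π⁻¹ := h1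
    have : w * finRotate 18 = π * finRotate 18 * π⁻¹ * w := by
      rw [← h1']; group
    calc (π⁻¹ * w) * finRotate 18 = π⁻¹ * (w * finRotate 18) := by group
      _ = π⁻¹ * (π * finRotate 18 * π⁻¹ * w) := by rw [this]
      _ = finRotate 18 * (π⁻¹ * w) := by group
  have h4 := commute_rot h3
  have h5 : ∀ j, w j = f (j + (π⁻¹ * w) 0) := by
    intro j
    have : w j = π ((π⁻¹ * w) j) := by simp
    rw [this, h4 j]
    rfl
  have h6 := rotations ((π⁻¹ * w) 0)
  have h7 : inv w = #{p : Fin 18 × Fin 18 | p.1 < p.2 ∧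
      f (p.2 + (π⁻¹ * w) 0) < f (p.1 + (π⁻¹ * w) 0)} := by
    rw [inv]
    congr 1
    ext p
    simp only [mem_filter, mem_univ, true_and]
    rw [h5 p.1, h5 p.2]
  omega

end Pool.Agent.Results.MP_fb91b8_co.SortEighteen
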